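import Pool.Agent.V11268.PerTower

set_option autoImplicit false

/-!
# The numbers `exp (z₀ exp b)` with algebraic `b`

`Forms γ` (from the starting library) is the space of all linear combinations, with algebraic
coefficients, of logarithms of algebraic numbers, of integrals of rational functions of one
variable with algebraic coefficients over compact intervals with algebraic end points, and of
the `g` arbitrary complex numbers `γ 0, ..., γ (g - 1)`.  If `exp (z₀ exp b)` is algebraic then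
`z₀ exp b` belongs to `Forms γ`.

`Mg g` is the smaller one of `2 g + 2` and `g + 2 √g + 2`, so `Mg 0 = 2`.

`e ^ e` is the number `exp (z₀ exp b)` for `z₀ = 1`, `b = 1`.
-/

namespace Pool.Agent.Results.MP_58ae59_nt.DifferencesOfExponents

open Pool.Agent.TH379.PER (Forms)
open V11268.PerG (Mg)
open scoped Pointwise

theorem result :
    (∀ (g : ℕ) (γ : Fin g → ℂ) (z₀ : ℂ), z₀ ≠ 0 →
      -- (0) algebraic values
      (∀ z : ℂ, IsAlgebraic ℚ (Complex.exp z) → z ∈ Forms γ) ∧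
      -- (1) finite sets of exponents
      (∀ B X : Finset ℂ, (∀ b ∈ B, IsAlgebraic ℚ b) → X.Nonempty →
        (∀ b ∈ X, IsAlgebraic ℚ b) →
        ({b : ℂ | b ∈ B ∧ z₀ * Complex.exp b ∈ Forms γ}.ncard : ℝ) ^ 2 * X.card ≤
          (B + X).card * ({b : ℂ | b ∈ B ∧ z₀ * Complex.exp b ∈ Forms γ}.ncard +
            Mg g * (X.card - 1))) ∧
      -- (2) arithmetic progressions of exponents
      (∀ α δ : ℂ, IsAlgebraic ℚ δ → δ ≠ 0 → ∀ N : ℕ,
        ({k : ℕ | 1 ≤ k ∧ k ≤ N ∧ z₀ * Complex.exp (α + k * δ) ∈ Forms γ}.ncard : ℝ) ≤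
          Real.sqrt (Mg g * N) + Real.sqrt (Real.sqrt (Mg g * N)) + 1)) ∧
    -- (3) algebraic numbers in the sequence `c ^ (e ^ k)`, for instance for `c = e`
    (∀ c : ℝ, 0 < c → c ≠ 1 → ∀ N : ℕ,
      ({k : ℕ | 1 ≤ k ∧ k ≤ N ∧ IsAlgebraic ℚ (c ^ (Real.exp 1 ^ (k : ℝ)))}.ncard : ℝ) ≤
        Real.sqrt (2 * N) + Real.sqrt (Real.sqrt (2 * N)) + 1) ∧
    (∀ N : ℕ,
      ({k : ℕ | 1 ≤ k ∧ k ≤ N ∧ IsAlgebraic ℚ (Real.exp 1 ^ (Real.exp 1 ^ (k : ℝ)))}.ncard : ℝ) ≤
        Real.sqrt (2 * N) + Real.sqrt (Real.sqrt (2 * N)) + 1) := by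
  have h0 : 0 < Real.exp 1 := Real.exp_pos 1
  have ht : Transcendental ℚ ((Real.exp 1 : ℝ) : ℂ) := by
    rw [Complex.ofReal_exp, Complex.ofReal_one]
    exact V11268.PerG.exp_transc isAlgebraic_one one_ne_zero
  have h1 : Real.exp 1 ≠ 1 := by
    intro h
    have := Real.exp_one_gt_d9
    rw [h] at this
    norm_num at this
  refine ⟨fun g γ z₀ hz => ⟨fun z h => Submodule.subset_span (Or.inl (Or.inr h)),
    fun B X hB hX hX1 => V11268.PerG.exp_energy γ hz B X hB hX hX1,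
    fun α δ hδ hδ0 N => V11268.PerG.exp_ap γ hz hδ hδ0 N⟩,
    fun c hc hc1 N => V11268.PerG.tower_alg h0 ht hc hc1 N,
    fun N => V11268.PerG.tower_alg h0 ht h0 h1 N⟩

end Pool.Agent.Results.MP_58ae59_nt.DifferencesOfExponents
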