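import Pool.Agent.H218.ZP.DigitsMv
import Pool.Agent.TH456.TM.E

/-!
# Linear complexity of the digits of polynomials in `e`, `e ^ e`, `e ^ (e ^ 2)`, …

`t_k = e ^ (e ^ k)`, so that `t_0 = e` and `t_1 = e ^ e`. `N_b(x; L)` is the least order of a linear recurrence over the
rational numbers for the first `L` digits of `x` in base `b`; `x` is low at the scale `Λ` if for some base
`b` and some `L` with `K log b ≤ Λ ≤ L log b` one has `N_b(x; L) log b < (1 / κ - ε) Λ`.

For all `r`, `d` there is `κ > 1`, and for each `ε > 0` there are `K, δ > 0` such that at every scale `Λ`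
there are algebraic functions `y_1, …, y_r` of `X` with `P(X, y_1, …, y_r)` a rational number for ALL integer
polynomials `P` of total degree at most `d` and height at most `exp (δ Λ)` for which some number
`P(t_0, …, t_r) / D`, `1 ≤ D ≤ exp (δ Λ)`, is low at the scale `Λ`.
-/

set_option autoImplicit false

namespace Pool.Agent.Results.MP_58ae59_nt.DigitsOfPolynomials

open Polynomial

/-- the field of the algebraic functions of one variable `X` (over the rational numbers) -/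
abbrev AlgFun : Type := AlgebraicClosure (FractionRing ℤ[X])

/-- the variable `X` as an algebraic function -/
noncomputable def theX : AlgFun :=
  algebraMap (FractionRing ℤ[X]) AlgFun (algebraMap ℤ[X] (FractionRing ℤ[X]) X)

/-- `P` has total degree at most `d` and coefficients of absolute value at most `H` -/
def Bounded {n : ℕ} (d : ℕ) (H : ℝ) (P : MvPolynomial (Fin n) ℤ) : Prop :=
  P.totalDegree ≤ d ∧ ∀ m, |((P.coeff m : ℤ) : ℝ)| ≤ H

/-- `e ^ (e ^ k)`; this is `e` for `k = 0` and `e ^ e` for `k = 1` -/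
noncomputable def number (k : ℕ) : ℝ := Real.exp (Real.exp k)

/-- the real number `P(e, e ^ e, …, e ^ (e ^ r))` -/
noncomputable def value {r : ℕ} (P : MvPolynomial (Fin (r + 1)) ℤ) : ℝ :=
  P.eval₂ (Int.castRingHom ℝ) (fun k : Fin (r + 1) => number k)

/-- the `i`-th digit of `x` after the point in base `b` -/
noncomputable def digit (b : ℕ) (x : ℝ) (i : ℕ) : ℤ := ⌊x * (b : ℝ) ^ i⌋ % (b : ℤ)

/-- The terms `s_1, …, s_L` satisfy the linear recurrence
`s_(i+m) = c_0 s_i + … + c_(m-1) s_(i+m-1)` for `1 ≤ i ≤ L - m`. -/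
def Recurrence (s : ℕ → ℤ) (c : ℕ → ℚ) (L m : ℕ) : Prop :=
  ∀ i : ℕ, 1 ≤ i → i + m ≤ L →
    (s (i + m) : ℚ) = ∑ j ∈ Finset.range m, c j * (s (i + j) : ℚ)

/-- the linear complexity of the first `L` digits of `x` in base `b` -/
noncomputable def complexity (b : ℕ) (x : ℝ) (L : ℕ) : ℕ :=
  sInf {m | ∃ c : ℕ → ℚ, Recurrence (digit b x) c L m}

/-- `x` has linear complexity less than `ν Λ / log b` at the scale `Λ` in some base `b` which is not
too large, for some number `L ≥ Λ / log b` of digits -/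
def Small (ν K Λ x : ℝ) : Prop :=
  ∃ b L : ℕ, 2 ≤ b ∧ K * Real.log b ≤ Λ ∧ Λ ≤ L * Real.log b ∧
    complexity b x L * Real.log b < ν * Λ

/-- **Linear complexity of the digits of polynomials in `e`, `e ^ e`, `e ^ (e ^ 2)`, ….** -/
theorem result : ∀ r d : ℕ, ∃ κ : ℝ, 1 < κ ∧ ∀ ε : ℝ, 0 < ε → ∃ K δ : ℝ, 0 < K ∧ 0 < δ ∧
    ∀ Λ : ℝ, ∃ y : Fin r → AlgFun, ∀ (P : MvPolynomial (Fin (r + 1)) ℤ) (D : ℕ),
      Bounded d (Real.exp (δ * Λ)) P → 1 ≤ D → (D : ℝ) ≤ Real.exp (δ * Λ) →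
      Small (1 / κ - ε) K Λ (value P / D) →
      ∃ q : ℚ, P.eval₂ (Int.castRingHom AlgFun) (Fin.cons theX y) = q := by
  intro r d
  obtain ⟨κ, hκ, h⟩ := Pool.Agent.H218.ZP.digitsAlg (Real.exp 1) Pool.Agent.TH456.TM.measT_e r d
  refine ⟨κ, hκ, fun ε hε => ?_⟩
  obtain ⟨T, hT⟩ : ∃ T : ℝ, ∀ i : Fin r, |number (i + 1)| ≤ T := by
    obtain ⟨T, hT⟩ := (Set.finite_range fun i : Fin r => |number (i + 1)|).bddAbove
    exact ⟨T, fun i => hT ⟨i, rfl⟩⟩
  obtain ⟨K, δ, hK, hδ, h1⟩ := h T ε hε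
  have h3 : (Fin.cons (Real.exp 1) (fun i : Fin r => number (i + 1)) :
      Fin (r + 1) → ℝ) = fun k : Fin (r + 1) => number k := by
    funext k
    refine Fin.cases ?_ (fun j => ?_) k
    · simp [number]
    · simp
  refine ⟨K, δ, hK, hδ, fun Λ => ?_⟩
  obtain ⟨y, hy⟩ := h1 (fun i : Fin r => number (i + 1)) hT Λ
  refine ⟨y, fun P D a1 a2 a3 a4 => hy P D a1 a2 a3 ?_⟩
  rw [h3]
  exact a4

end Pool.Agent.Results.MP_58ae59_nt.DigitsOfPolynomials
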