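import Pool.Agent.Helper264.NT.NearExp
import Pool.Agent.H164.EM.Meas

/-!
# The numbers `e ^ s, e ^ (e s), e ^ (e ^ 2 s), …` at all algebraic points near almost every point

The question is whether `e ^ e` is irrational: the number `e ^ (e s)` for `s = 1`.

There is one set `E` of complex numbers of Hausdorff dimension `0` such that for all complex `z` outside of `E`, all `k`, all
number fields `K ⊂ ℂ`, all degrees `d`, all `A` and ALL exponents `w > 0` (arbitrarily small) there are `B` and `T₀` such that for
all `T ≥ T₀`, at ALL numbers `s` in `K` of height at most `T` with `|s - z| ≤ T ^ (-w)`, the numbers `e` and `e ^ (e ^ i s)`,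
`i = 0, …, k - 1`, have no relation over `K` of partial degrees at most `d` and height at most `T ^ A`, not even an approximate
one: all values are greater than `T ^ (-B)`. In particular `(e ^ e) ^ s` is not rational and not algebraic of degree at most
`d` and height at most `T ^ A` over `K(e, e ^ s)`. For `w < 1` there are many such rational `s` for all large `T`. The result below
is for several points `s_1, …, s_n`, outside of a set in `ℂ ^ n` of dimension at most `2 n - 2`.

Proof: the exceptional tuples lie on `C T ^ ε` hypersurfaces of degree at most `D` (`Pool.Agent.Y771.KF.stdK` of helper771 and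
helper124, with the measure of transcendence of `e` of helper164), and the points near such hypersurfaces form a set of small
dimension (uniform coverings of the zeros of polynomials of bounded degree, `Pool.Agent.Helper264.NT.mainK`). The functions
`t, e ^ t, e ^ (e t), …` are algebraically independent since the powers of `e` are linearly independent over `ℚ`.
-/

set_option autoImplicit false

open Height
open scoped ENNReal

namespace Pool.Agent.Results.MP_58ae59_nt.MultiplesNearEveryPoint

/-- the `n k + 1` numbers `e` and `e ^ (e ^ i s_j)`, `i < k` -/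
noncomputable def numbers {n : ℕ} (k : ℕ) (s : Fin n → ℂ) (x : Option (Fin n × Fin k)) : ℂ :=
  x.elim (Complex.exp 1) fun c => Complex.exp (Complex.exp 1 ^ (c.2 : ℕ) * s c.1)

/-- every nonzero polynomial in `n k + 1` variables with coefficients in `K` of height at most `T ^ A`, of degree at most `d` in
each variable, takes at the numbers `e`, `e ^ (e ^ i s_j)` a value of absolute value greater than `T ^ (-B)` -/
def Measure {n : ℕ} (k : ℕ) (K : IntermediateField ℚ ℂ) [NumberField K] (d : ℕ) (A B T : ℝ) (s : Fin n → K) : Prop :=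
  ∀ P : MvPolynomial (Option (Fin n × Fin k)) K, P ≠ 0 → (∀ i, P.degreeOf i ≤ d) →
    (∀ e, mulHeight₁ (P.coeff e) ≤ T ^ A) →
      T ^ (-B) < ‖MvPolynomial.eval₂ (algebraMap K ℂ) (numbers k fun j => (s j : ℂ)) P‖

/-- **Theorem.** Let `n ≥ 1`. There is a subset `E` of `ℂ ^ n` of Hausdorff dimension at most `2 (n - 1)` such that for all `z`
outside of `E`, all `k`, all number fields `K ⊂ ℂ`, all `d`, `A` and `w > 0` there are `B` and `T₀` such that for all `T ≥ T₀` and
all `n`-tuples `s` of elements of `K` of height at most `T` with `|s_j - z_j| ≤ T ^ (-w)` the numbers `e` and `e ^ (e ^ i s_j)`,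
`i < k`, have the property `Measure`. -/
theorem result (n : ℕ) (hn : 1 ≤ n) :
    ∃ E : Set (Fin n → ℂ), dimH E ≤ ((2 * (n - 1) : ℕ) : ℝ≥0∞) ∧ ∀ z ∉ E,
      ∀ (k : ℕ) (K : IntermediateField ℚ ℂ) [NumberField K] (d : ℕ) (A w : ℝ), 0 < w → ∃ B T₀ : ℝ, ∀ T ≥ T₀,
        ∀ s : Fin n → K, (∀ j, mulHeight₁ (s j) ≤ T ∧ ‖(s j : ℂ) - z j‖ ≤ T ^ (-w)) → Measure k K d A B T s := by
  have hmain := fun k : ℕ => Pool.Agent.Helper264.NT.near_exp (fun i : Fin k => (1 : ℝ) * Real.exp 1 ^ (i : ℕ))
    (Pool.Agent.Helper264.NT.powers_indep (Real.exp 1) Pool.Agent.H164.EM.goodXi_e 1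
      one_ne_zero k) (Real.exp 1) Pool.Agent.H164.EM.goodXi_e n hn
  choose E hE1 hE2 using hmain
  refine ⟨⋃ k, E k, ?_, ?_⟩
  · rw [dimH_iUnion]
    exact iSup_le hE1
  · intro z hz k K _ d A w hw
    obtain ⟨B, T0, h⟩ := hE2 k z (fun h => hz (Set.mem_iUnion.2 ⟨k, h⟩)) K d A w hw
    refine ⟨B, T0, fun T hT s hs P hP hd hc => ?_⟩
    have h1 := h T hT s hs P hP hd hc
    have h2 : (fun o : Option (Fin n × Fin k) => o.elim ((Real.exp 1 : ℝ) : ℂ) fun c =>
        Complex.exp ((((1 : ℝ) * Real.exp 1 ^ (c.2 : ℕ) : ℝ) : ℂ) * (s c.1 : ℂ))) = numbers k fun j => (s j : ℂ) := by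
      funext o
      cases o with
      | none =>
        change ((Real.exp 1 : ℝ) : ℂ) = Complex.exp 1
        rw [Complex.ofReal_exp, Complex.ofReal_one]
      | some c =>
        change Complex.exp ((((1 : ℝ) * Real.exp 1 ^ (c.2 : ℕ) : ℝ) : ℂ) * (s c.1 : ℂ)) =
          Complex.exp (Complex.exp 1 ^ (c.2 : ℕ) * (s c.1 : ℂ))
        rw [one_mul, Complex.ofReal_pow, Complex.ofReal_exp, Complex.ofReal_one]
    rw [← h2]
    exact h1

end Pool.Agent.Results.MP_58ae59_nt.MultiplesNearEveryPoint
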