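import Pool.Agent.V11252.NP.Five

set_option autoImplicit false

/-!
# MP_58ae59_nt: the number `e ^ e` together with `α ^ e`, `α ^ (e²)`, `e ^ (π e)`, `cos (π e)`

`LogForms` is the space of all linear combinations, with algebraic coefficients, of `1` and of
logarithms of algebraic numbers; `InP t` says that `t > 0` and `log t ∈ LogForms`, i.e.
`t = e ^ γ α₁ ^ β₁ ⋯ αₖ ^ βₖ` with algebraic `γ`, `αᵢ`, `βᵢ`.  All positive algebraic numbers, in
particular all positive rational numbers, have this property.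

The proofs use the strong six exponentials theorem of Roy (library: helper301, helper335) with
`1, π ∈ LogForms` as additional entries, and Baker's theorem.
-/

namespace Pool.Agent.Results.MP_58ae59_nt.OneOfThree

/-- The linear combinations, with algebraic coefficients, of `1` and of logarithms of algebraic
numbers. -/
noncomputable def LogForms : Submodule (algebraicClosure ℚ ℂ) ℂ :=
  Submodule.span (algebraicClosure ℚ ℂ) ({1} ∪ {z : ℂ | IsAlgebraic ℚ (Complex.exp z)})

/-- `t > 0` and `log t` is in `LogForms`. -/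
def InP (t : ℝ) : Prop := 0 < t ∧ ((Real.log t : ℝ) : ℂ) ∈ LogForms

/-- Multiplicative independence. -/
def MInd {r : ℕ} (α : Fin r → ℝ) : Prop := ∀ k : Fin r → ℤ, ∏ i, α i ^ k i = 1 → k = 0

/-- The set is empty or consists of the powers `n₁, n₁ ^ 2, n₁ ^ 3, …` of one integer `n₁ ≥ 2`. -/
def PowersOfOne (S : Set ℕ) : Prop :=
  S = ∅ ∨ ∃ n₁ : ℕ, 2 ≤ n₁ ∧ S = {n | ∃ k : ℕ, 1 ≤ k ∧ n = n₁ ^ k}

open Pool.Agent.H301R2.SSE Pool.Agent.H340R2 Pool.Agent.H462R2.PiE Pool.Agent.H137R5.Tow

open Classical in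
/-- **Main result.**
(1) For any two multiplicatively independent positive algebraic numbers `α 0`, `α 1`, one of the
three numbers `e ^ e`, `(α 0) ^ e`, `(α 1) ^ e` does not have the property `InP`.  Equivalently: if
`e ^ e` has the property `InP` (for example if it is rational), then the set of the integers
`n ≥ 2` for which `n ^ e` is rational is empty or consists of the powers of one integer, and so is
the set of those for which `n ^ e` is algebraic, and of those for which it has the property `InP`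
(at most `log₂ N` of them are `≤ N`).
(2) If `x ≠ 0` is real and `e ^ x` and `e ^ (e x)` are algebraic, then one of `e ^ e`, `e ^ (e² x)`
does not have the property `InP`.  In particular for every positive algebraic `α ≠ 1` one of the
three numbers `e ^ e`, `α ^ e`, `α ^ (e²)` is transcendental.
(3) For every positive algebraic `α ≠ 1`: one of `e ^ e`, `α ^ e` does not have the property `InP`,
or `e ^ (π e)` does not have it and `cos (π e)` is transcendental.
(4) One of `e ^ e`, `e ^ (e²)`, `e ^ (e³)` does not have the property `InP`, and at most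
`2 √N + 1` of the numbers `e ^ (e ^ k)`, `1 ≤ k ≤ N`, have it.
(5) A positive number `t` without the property `InP` is transcendental, and so are `e ^ γ t ^ δ` for
algebraic `γ` and algebraic `δ ≠ 0`. -/
theorem result :
    ((∀ α : Fin 2 → ℝ, (∀ i, 0 < α i) → (∀ i, IsAlgebraic ℚ (α i)) → MInd α →
        ¬ InP (Real.exp (Real.exp 1)) ∨ ∃ i, ¬ InP (α i ^ Real.exp 1)) ∧
      (InP (Real.exp (Real.exp 1)) →
        PowersOfOne {n : ℕ | 2 ≤ n ∧ ∃ q : ℚ, (n : ℝ) ^ Real.exp 1 = q} ∧
        PowersOfOne {n : ℕ | 2 ≤ n ∧ IsAlgebraic ℚ ((n : ℝ) ^ Real.exp 1)} ∧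
        PowersOfOne {n : ℕ | 2 ≤ n ∧ InP ((n : ℝ) ^ Real.exp 1)} ∧
        ∀ N : ℕ, ((Finset.Icc 2 N).filter
          (fun n : ℕ => InP ((n : ℝ) ^ Real.exp 1))).card ≤ Nat.log 2 N)) ∧
    ((∀ x : ℝ, x ≠ 0 → IsAlgebraic ℚ (Real.exp x) → IsAlgebraic ℚ (Real.exp (Real.exp 1 * x)) →
        ¬ InP (Real.exp (Real.exp 1)) ∨ ¬ InP (Real.exp (Real.exp 1 ^ 2 * x))) ∧
      (∀ α : ℝ, 0 < α → IsAlgebraic ℚ α → α ≠ 1 → Transcendental ℚ (Real.exp (Real.exp 1)) ∨
        Transcendental ℚ (α ^ Real.exp 1) ∨ Transcendental ℚ (α ^ (Real.exp 1 ^ 2)))) ∧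
    (∀ α : ℝ, 0 < α → IsAlgebraic ℚ α → α ≠ 1 →
      ¬ InP (Real.exp (Real.exp 1)) ∨ ¬ InP (α ^ Real.exp 1) ∨
        (¬ InP (Real.exp (Real.pi * Real.exp 1)) ∧
          Transcendental ℚ (Real.cos (Real.pi * Real.exp 1)))) ∧
    ((¬ InP (Real.exp (Real.exp 1)) ∨ ¬ InP (Real.exp (Real.exp 1 ^ 2)) ∨
        ¬ InP (Real.exp (Real.exp 1 ^ 3))) ∧
      ∀ N : ℕ, (((Finset.Icc 1 N).filter
        (fun k : ℕ => InP (Real.exp (Real.exp 1 ^ k)))).card : ℝ) ≤ 2 * Real.sqrt N + 1) ∧
    (∀ t : ℝ, 0 < t → ¬ InP t → Transcendental ℚ t ∧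
      ∀ γ δ : ℂ, IsAlgebraic ℚ γ → IsAlgebraic ℚ δ → δ ≠ 0 →
        Transcendental ℚ (Complex.exp (γ + δ * ((Real.log t : ℝ) : ℂ)))) := by
  have he := LW.transcendental_exp_one
  have hexp : ∀ x : ℝ, InP (Real.exp x) ↔ ((x : ℝ) : ℂ) ∈ Lt := fun x => by
    unfold InP
    rw [Real.log_exp]
    exact ⟨fun h => h.2, fun h => ⟨Real.exp_pos x, h⟩⟩
  have hfree : ∀ t : ℝ, 0 < t → ¬ InP t → Transcendental ℚ t ∧
      ∀ γ δ : ℂ, IsAlgebraic ℚ γ → IsAlgebraic ℚ δ → δ ≠ 0 →
        Transcendental ℚ (Complex.exp (γ + δ * ((Real.log t : ℝ) : ℂ))) := by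
    intro t ht hn
    have hf : Free t := by
      by_contra hf
      exact hn ⟨ht, bad_of_not_free hf⟩
    exact ⟨free_tr ht hf, fun γ δ hγ hδ hδ0 => free_pow hf γ δ hγ hδ hδ0⟩
  have halg : ∀ t : ℝ, 0 < t → IsAlgebraic ℚ t → InP t := fun t ht h =>
    Pool.Agent.V11252.NP.inP_alg ht h
  have hone : InP (Real.exp (Real.exp 1)) →
      ((Real.exp 1 : ℝ) : ℂ) * (1 + 0 * (Real.pi : ℂ)) ∈ Lt := by
    intro h
    rw [zero_mul, add_zero, mul_one]
    exact (hexp _).1 h
  have h1 : InP (Real.exp (Real.exp 1)) → ∀ α : Fin 2 → ℝ, (∀ i, 0 < α i) →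
      (∀ i, IsAlgebraic ℚ (α i)) → MInd α → ∃ i, ¬ InP (α i ^ Real.exp 1) := by
    intro h α hα ha hi
    exact Pool.Agent.V11252.NP.two_excl (Real.exp 1) he 1 0 isAlgebraic_one isAlgebraic_zero
      (Or.inl one_ne_zero) (hone h) α hα ha hi
  have h2 : ∀ x : ℝ, x ≠ 0 → IsAlgebraic ℚ (Real.exp x) →
      IsAlgebraic ℚ (Real.exp (Real.exp 1 * x)) →
        ¬ InP (Real.exp (Real.exp 1)) ∨ ¬ InP (Real.exp (Real.exp 1 ^ 2 * x)) := by
    intro x hx a1 a2
    by_contra hcon
    push Not at hcon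
    exact Pool.Agent.V11252.NP.five (Real.exp 1) he 1 0 isAlgebraic_one isAlgebraic_zero
      (Or.inl one_ne_zero) (hone hcon.1) x hx a1 a2 ((hexp _).1 hcon.2)
  refine ⟨⟨?_, ?_⟩, ⟨h2, ?_⟩, ?_, ⟨?_, ?_⟩, hfree⟩
  · intro α hα ha hi
    by_cases h : InP (Real.exp (Real.exp 1))
    · exact Or.inr (h1 h α hα ha hi)
    · exact Or.inl h
  · intro h
    have h4 := Pool.Agent.V11252.NP.three_sets (Real.exp 1) (h1 h)
    exact ⟨h4.1, h4.2.1, h4.2.2,
      fun N => Pool.Agent.V11252.NP.card_powers _ h4.2.2 N _ fun n hn h => ⟨hn, h⟩⟩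
  · intro α hα ha h1
    by_contra hcon
    push Not at hcon
    obtain ⟨c1, c2, c3⟩ := hcon
    rw [Transcendental, not_not] at c1 c2 c3
    have hl0 : Real.log α ≠ 0 := log_ne hα h1
    have e1 : α ^ Real.exp 1 = Real.exp (Real.exp 1 * Real.log α) := by
      rw [Real.rpow_def_of_pos hα, mul_comm]
    have e2 : α ^ (Real.exp 1 ^ 2) = Real.exp (Real.exp 1 ^ 2 * Real.log α) := by
      rw [Real.rpow_def_of_pos hα, mul_comm]
    rcases h2 (Real.log α) hl0 (by rw [Real.exp_log hα]; exact ha) (by rw [← e1]; exact c2)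
      with h | h
    · exact h (halg _ (Real.exp_pos _) c1)
    · exact h (halg _ (Real.exp_pos _) (by rw [← e2]; exact c3))
  · intro α hα ha h1
    have key : InP (Real.exp (Real.exp 1)) → InP (α ^ Real.exp 1) →
        ¬ ((Real.exp 1 : ℝ) : ℂ) * (Real.pi : ℂ) ∈ Lt := by
      intro c1 c3 c4
      have hl0 : Real.log α ≠ 0 := log_ne hα h1
      refine core (Real.exp 1) he (1 : ℂ) (Real.pi : ℂ)
        ((Real.log α : ℝ) : ℂ) ?_ Lt_one pi_mem (log_mem' hα ha) ?_ c4
        ((Pool.Agent.V11252.NP.inP_rpow hα).1 c3)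
      · intro a c d ha' hc hd hs
        have := bkn (fun _ : Fin 1 => Real.log α) (fun _ => by rw [Real.exp_log hα]; exact ha) (by
          intro p hp i
          fin_cases i
          rw [Fin.sum_univ_one] at hp
          have : (p 0 : ℝ) = 0 := (mul_eq_zero.1 hp).resolve_right hl0
          exact_mod_cast this) a c (fun _ => d) ha' hc (fun _ => hd) (by
          rw [Fin.sum_univ_one]
          linear_combination hs)
        exact ⟨this.1, this.2.2, this.2.1 0⟩
      · rw [mul_one]
        exact (hexp _).1 c1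
    by_cases c1 : InP (Real.exp (Real.exp 1))
    · by_cases c3 : InP (α ^ Real.exp 1)
      · refine Or.inr (Or.inr ⟨fun c4 => key c1 c3 ?_, fun c4 => key c1 c3 ?_⟩)
        · have := (hexp _).1 c4
          rw [mul_comm]
          push_cast at this ⊢
          exact this
        · -- `cos (π e)` algebraic
          have hs : IsAlgebraic ℚ (Real.sin (Real.pi * Real.exp 1)) := by
            have h5 : IsAlgebraic ℚ (Real.sin (Real.pi * Real.exp 1) ^ 2) := by
              rw [Real.sin_sq]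
              exact isAlgebraic_one.sub (c4.pow 2)
            exact h5.of_pow (by norm_num)
          have hI : IsAlgebraic ℚ Complex.I := by
            refine IsAlgebraic.of_pow (n := 2) (by norm_num) ?_
            rw [Complex.I_sq]
            exact isAlgebraic_one.neg
          have hw : IsAlgebraic ℚ (Complex.exp (((Real.pi * Real.exp 1 : ℝ) : ℂ) * Complex.I)) := by
            rw [Complex.exp_mul_I, ← Complex.ofReal_cos, ← Complex.ofReal_sin]
            exact (alg_ofReal c4).add ((alg_ofReal hs).mul hI)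
          have h6 := Lt_mul hI.neg (Lt_log hw)
          have h7 : -Complex.I * (((Real.pi * Real.exp 1 : ℝ) : ℂ) * Complex.I) =
              ((Real.exp 1 : ℝ) : ℂ) * (Real.pi : ℂ) := by
            rw [show -Complex.I * (((Real.pi * Real.exp 1 : ℝ) : ℂ) * Complex.I) =
              -(Complex.I * Complex.I) * ((Real.pi * Real.exp 1 : ℝ) : ℂ) by ring,
              Complex.I_mul_I]
            push_cast
            ring
          rw [← h7]
          exact h6
      · exact Or.inr (Or.inl c3)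
    · exact Or.inl c1
  · by_contra hcon
    push Not at hcon
    obtain ⟨c1, c2, c3⟩ := hcon
    have hc := powers ((Real.exp 1 : ℝ) : ℂ) (trC he) 0 1 2 (by norm_num) (by norm_num)
      (by norm_num)
    rw [pow_zero, pow_one] at hc
    have d1 := (hexp _).1 c1
    have d2 := (hexp _).1 c2
    have d3 := (hexp _).1 c3
    refine core (Real.exp 1) he _ _ _ hc Lt_one d1 ?_ ?_ ?_ ?_
    · push_cast at d2 ⊢
      exact d2
    · rw [mul_one]
      exact d1
    · rw [← pow_two]
      push_cast at d2 ⊢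
      exact d2
    · rw [show ((Real.exp 1 : ℝ) : ℂ) * ((Real.exp 1 : ℝ) : ℂ) ^ 2 =
        ((Real.exp 1 ^ 3 : ℝ) : ℂ) by push_cast; ring]
      exact d3
  · intro N
    have h5 := topCount (Real.exp 1) 1 he one_ne_zero N
    have h6 : (Finset.Icc 1 N).filter (fun k : ℕ => InP (Real.exp (Real.exp 1 ^ k))) =
        (Finset.Icc 1 N).filter (fun k : ℕ => InE (Real.exp 1) 1 k) := by
      apply Finset.filter_congr
      intro k _
      rw [hexp]
      unfold InE
      rw [mul_one]
    rw [h6]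
    exact h5

end Pool.Agent.Results.MP_58ae59_nt.OneOfThree
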